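import Mathlib

/-! Polynomial points on elliptic curves over `K(T)`: `deg x ≤ 12 max (deg a) (deg b)`. -/

open Polynomial

namespace Pool.Agent.J4H90.HL

variable {K : Type*} [Field K] [CharZero K]

/-- a quadratic relation with coefficients of small degree -/
lemma quad_zero {x c₀ c₁ c₂ : K[X]} {N : ℕ} (h0 : c₀.natDegree ≤ N) (h1 : c₁.natDegree ≤ N)
    (h2 : c₂.natDegree ≤ N) (hx : N < x.natDegree) (h : c₂ * x ^ 2 + c₁ * x + c₀ = 0) :
    c₀ = 0 ∧ c₁ = 0 ∧ c₂ = 0 := by
  have hx0 : x ≠ 0 := by rintro rfl; simp at hx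
  have e2 : c₂ = 0 := by
    by_contra hc
    have h3 : (c₂ * x ^ 2).natDegree = c₂.natDegree + 2 * x.natDegree := by
      rw [natDegree_mul hc (pow_ne_zero 2 hx0), natDegree_pow]
    have h4 : c₂ * x ^ 2 = -(c₁ * x + c₀) := by linear_combination h
    have h5 : (c₁ * x + c₀).natDegree ≤ N + x.natDegree := by
      refine (natDegree_add_le _ _).trans (max_le ?_ (by omega))
      exact natDegree_mul_le.trans (by omega)
    rw [h4, natDegree_neg] at h3
    omega
  subst e2
  have e1 : c₁ = 0 := by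
    by_contra hc
    have h3 : (c₁ * x).natDegree = c₁.natDegree + x.natDegree := natDegree_mul hc hx0
    have h4 : c₁ * x = -c₀ := by linear_combination h
    rw [h4, natDegree_neg] at h3
    omega
  subst e1
  exact ⟨by linear_combination h, rfl, rfl⟩

lemma deg_quot {p q : K[X]} {m N : ℕ} (hp : p ≠ 0) (hm : m ≤ p.natDegree)
    (h : (p * q).natDegree ≤ m + N) : q.natDegree ≤ N := by
  by_cases hq : q = 0
  · rw [hq]; simp
  · rw [natDegree_mul hp hq] at h
    omega

lemma nd_le {p : K[X]} {m N : ℕ} (h : p.natDegree ≤ m) (h' : m ≤ N) : p.natDegree ≤ N := h.trans h'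

theorem ff_bound {x y a b : K[X]} (h : y ^ 2 = x ^ 3 + a * x + b)
    (hD : 4 * a ^ 3 + 27 * b ^ 2 ≠ 0) {n : ℕ} (ha : a.natDegree ≤ n) (hb : b.natDegree ≤ n) :
    x.natDegree ≤ 12 * n := by
  by_contra hcon
  push Not at hcon
  set d := x.natDegree with hd
  have hx0 : x ≠ 0 := by rintro rfl; simp at hd; omega
  obtain ⟨dx, hdx⟩ : ∃ dx, dx = derivative x := ⟨_, rfl⟩
  obtain ⟨dy, hdy⟩ : ∃ dy, dy = derivative y := ⟨_, rfl⟩
  obtain ⟨da, hda⟩ : ∃ da, da = derivative a := ⟨_, rfl⟩
  obtain ⟨db, hdb⟩ : ∃ db, db = derivative b := ⟨_, rfl⟩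
  have hR : 2 * y * dy = (3 * x ^ 2 + a) * dx + da * x + db := by
    have h1 := congrArg derivative h
    simp only [derivative_pow, derivative_add, derivative_mul, Nat.cast_ofNat, map_ofNat] at h1
    rw [hdx, hdy, hda, hdb]
    norm_num at h1
    linear_combination h1
  obtain ⟨D, hDd⟩ : ∃ D, D = 4 * a ^ 3 + 27 * b ^ 2 := ⟨_, rfl⟩
  obtain ⟨j, hj⟩ : ∃ j, j = 2 * a * db - 3 * b * da := ⟨_, rfl⟩
  obtain ⟨q, hq⟩ : ∃ q, q = 2 * a ^ 2 * da + 9 * b * db := ⟨_, rfl⟩
  obtain ⟨z, hz⟩ : ∃ z, z = (-18 * a * x + 27 * b) * y * dx +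
    2 * (6 * a * x ^ 2 - 9 * b * x + 4 * a ^ 2) * dy - 6 * a * da * y := ⟨_, rfl⟩
  have hN : y * z = D * dx + 3 * j * x ^ 2 - q * x + 2 * a * j := by
    rw [hz, hDd, hj, hq]
    linear_combination ((-18 * a * x + 27 * b) * dx - 6 * a * da) * h +
      (6 * a * x ^ 2 - 9 * b * x + 4 * a ^ 2) * hR
  rw [← hDd] at hD
  -- degrees
  have dda : da.natDegree ≤ n := by rw [hda]; exact (natDegree_derivative_le _).trans (by omega)
  have ddb : db.natDegree ≤ n := by rw [hdb]; exact (natDegree_derivative_le _).trans (by omega)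
  have ddx : dx.natDegree ≤ d := by rw [hdx]; exact (natDegree_derivative_le _).trans (by omega)
  have dD : D.natDegree ≤ 3 * n := by
    rw [hDd]
    compute_degree
    omega
  have dj : j.natDegree ≤ 2 * n := by
    rw [hj]
    compute_degree
    omega
  have dq : q.natDegree ≤ 3 * n := by
    rw [hq]
    compute_degree
    omega
  obtain ⟨w, hw⟩ : ∃ w, w = D * dx - q * x + 2 * a * j := ⟨_, rfl⟩
  have dw : w.natDegree ≤ 3 * n + d := by
    rw [hw]
    compute_degree
    omega
  have hNw : y * z = 3 * j * x ^ 2 + w := by rw [hw]; linear_combination hN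
  obtain ⟨E, hE⟩ : ∃ E, E = z ^ 2 - 9 * j ^ 2 * x := ⟨_, rfl⟩
  have hfE : (x ^ 3 + (a * x + b)) * E = 6 * j * x ^ 2 * w + w ^ 2 - 9 * a * j ^ 2 * x ^ 2 -
      9 * b * j ^ 2 * x := by
    rw [hE]
    linear_combination (-(z ^ 2)) * h + (y * z + 3 * j * x ^ 2 + w) * hNw
  have df1 : (a * x + b).natDegree ≤ n + d := by
    compute_degree
    omega
  have df2 : (x ^ 3).natDegree = 3 * d := by rw [natDegree_pow]
  have df : (x ^ 3 + (a * x + b)).natDegree = 3 * d := by
    rw [natDegree_add_eq_left_of_natDegree_lt (by rw [df2]; omega), df2]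
  have hf0 : x ^ 3 + (a * x + b) ≠ 0 := by
    intro h0
    rw [h0, natDegree_zero] at df
    omega
  have dE : E.natDegree ≤ 5 * n := by
    refine deg_quot hf0 df.ge ?_
    rw [hfE]
    compute_degree
    omega
  obtain ⟨e, he⟩ : ∃ e, e = x * E - 6 * j * (w - 2 * a * j) := ⟨_, rfl⟩
  have he2 : x ^ 2 * e = 3 * a * j ^ 2 * x ^ 2 - 9 * b * j ^ 2 * x + w ^ 2 -
      (a * x + b) * E := by
    rw [he]
    linear_combination hfE
  have h6w : 6 * j * w = x * E - e + 12 * a * j ^ 2 := by
    rw [he]; ring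
  have de : e.natDegree ≤ 6 * n := by
    refine deg_quot (p := x ^ 2) (m := 2 * d) (pow_ne_zero 2 hx0) (by rw [natDegree_pow]) ?_
    rw [he2]
    compute_degree
    omega
  obtain ⟨c₂, hc₂⟩ : ∃ c₂, c₂ = 108 * a * j ^ 4 + E ^ 2 - 36 * j ^ 2 * e := ⟨_, rfl⟩
  obtain ⟨c₁, hc₁⟩ : ∃ c₁, c₁ = -324 * b * j ^ 4 + 2 * E * (12 * a * j ^ 2 - e) -
    36 * j ^ 2 * a * E := ⟨_, rfl⟩
  obtain ⟨c₀, hc₀⟩ : ∃ c₀, c₀ = (12 * a * j ^ 2 - e) ^ 2 - 36 * j ^ 2 * b * E := ⟨_, rfl⟩
  have hrel : c₂ * x ^ 2 + c₁ * x + c₀ = 0 := by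
    rw [hc₂, hc₁, hc₀]
    linear_combination (-36 * j ^ 2) * he2 - (x * E - e + 12 * a * j ^ 2 + 6 * j * w) * h6w
  obtain ⟨z0, z1, z2⟩ := quad_zero (N := 12 * n) (by rw [hc₀]; compute_degree; omega)
    (by rw [hc₁]; compute_degree; omega) (by rw [hc₂]; compute_degree; omega) hcon hrel
  by_cases hj0 : j = 0
  · -- the isotrivial case
    rw [hj0] at hN
    have hN' : y * z = D * dx - q * x := by linear_combination hN
    have hyd : 2 * y.natDegree = 3 * d := by
      rw [← natDegree_pow, h, add_assoc]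
      exact df
    by_cases hz0 : z = 0
    · rw [hz0, mul_zero] at hN'
      have h1 : 6 * (D * dx) = derivative D * x := by
        have h2 : derivative D = 6 * q := by
          rw [hDd, hq, hda, hdb]
          simp only [derivative_pow, derivative_add, derivative_mul, Nat.cast_ofNat, map_ofNat]
          norm_num
          ring
        rw [h2]
        linear_combination (-6) * hN'
      rcases Nat.eq_zero_or_pos D.natDegree with h3 | h3
      · have h4 : derivative D = 0 := by
          rw [eq_C_of_natDegree_eq_zero h3, derivative_C]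
        rw [h4, zero_mul] at h1
        have h5 : dx = 0 := by
          rcases mul_eq_zero.1 h1 with h6 | h6
          · norm_num at h6
          · rcases mul_eq_zero.1 h6 with h7 | h7
            · exact absurd h7 hD
            · exact h7
        rw [hdx] at h5
        have h6 := natDegree_eq_zero_of_derivative_eq_zero h5
        omega
      · have h4 := congrArg (fun p => p.coeff ((D.natDegree - 1) + d)) h1
        have h5 : (derivative D * x).coeff ((D.natDegree - 1) + d) =
            (derivative D).coeff (D.natDegree - 1) * x.coeff d :=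
          coeff_mul_add_eq_of_natDegree_le (natDegree_derivative_le _) le_rfl
        have h6 : (D * dx).coeff (D.natDegree + (d - 1)) = D.coeff D.natDegree * dx.coeff (d - 1) :=
          coeff_mul_add_eq_of_natDegree_le le_rfl (by rw [hdx]; exact natDegree_derivative_le _)
        have h7 : (D.natDegree - 1) + d = D.natDegree + (d - 1) := by omega
        have h8 : (6 * (D * dx)).coeff (D.natDegree + (d - 1)) =
            6 * (D * dx).coeff (D.natDegree + (d - 1)) := by
          rw [← map_ofNat C 6, coeff_C_mul]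
        beta_reduce at h4
        rw [h5, h7, h8, h6, hdx, coeff_derivative, coeff_derivative] at h4
        have h9 : D.natDegree - 1 + 1 = D.natDegree := by omega
        have h10 : d - 1 + 1 = d := by omega
        have c1 : ((D.natDegree - 1 : ℕ) : K) + 1 = (D.natDegree : K) := by
          rw [← Nat.cast_succ, Nat.succ_eq_add_one, h9]
        have c2 : ((d - 1 : ℕ) : K) + 1 = (d : K) := by
          rw [← Nat.cast_succ, Nat.succ_eq_add_one, h10]
        rw [h9, h10, c1, c2] at h4
        have l1 : D.coeff D.natDegree ≠ 0 := leadingCoeff_ne_zero.2 hD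
        have l2 : x.coeff d ≠ 0 := leadingCoeff_ne_zero.2 hx0
        have h11 : (D.coeff D.natDegree * x.coeff d) * ((6 * d : ℕ) : K) =
            (D.coeff D.natDegree * x.coeff d) * (D.natDegree : K) := by
          push_cast
          linear_combination h4
        have h12 := mul_left_cancel₀ (mul_ne_zero l1 l2) h11
        have h13 : 6 * d = D.natDegree := by exact_mod_cast h12
        omega
    · have hy0 : y ≠ 0 := by
        rintro rfl
        simp at hyd
        omega
      have h1 : (y * z).natDegree ≤ 3 * n + d := by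
        rw [hN']
        compute_degree
        omega
      rw [natDegree_mul hy0 hz0] at h1
      omega
  · rw [hc₂] at z2
    rw [hc₁] at z1
    rw [hc₀] at z0
    have hA : E ^ 3 + 324 * a * j ^ 4 * E + 5832 * b * j ^ 6 = 0 := by
      linear_combination (-18 * j ^ 2) * z1 + E * z2
    have hB : (324 * a * j ^ 4 - E ^ 2) ^ 2 - 46656 * j ^ 6 * b * E = 0 := by
      linear_combination (1296 * j ^ 4) * z0 - (2 * (324 * a * j ^ 4 - E ^ 2) +
        (108 * a * j ^ 4 + E ^ 2 - 36 * j ^ 2 * e)) * z2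
    have hC : (3 * E ^ 2 + 324 * a * j ^ 4) ^ 2 = 0 := by
      linear_combination hB + 8 * E * hA
    have hC' : 3 * E ^ 2 + 324 * a * j ^ 4 = 0 := pow_eq_zero_iff (two_ne_zero) |>.1 hC
    have h1 : (648 * j ^ 4) * (a * E + 27 * b * j ^ 2) = 0 := by
      linear_combination 3 * hA - E * hC'
    have h2 : a * E + 27 * b * j ^ 2 = 0 := by
      rcases mul_eq_zero.1 h1 with h3 | h3
      · exact absurd h3 (mul_ne_zero (by norm_num) (pow_ne_zero 4 hj0))
      · exact h3
    have h3 : (81 * j ^ 4) * D = 0 := by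
      rw [hDd]
      linear_combination a ^ 2 * hC' - 3 * (a * E - 27 * b * j ^ 2) * h2
    rcases mul_eq_zero.1 h3 with h4 | h4
    · exact absurd h4 (mul_ne_zero (by norm_num) (pow_ne_zero 4 hj0))
    · exact hD h4

end Pool.Agent.J4H90.HL
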