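import Mathlib
import Pool.Agent.J4H90.HL.FF

/-! Integral points with small digits. -/

open Polynomial

namespace Pool.Agent.J4H90.HL

/-- polynomials with small length -/
def Sm (s : ℕ) (F : ℤ[X]) : Prop :=
  ∃ P Q : ℕ[X], F = P.map (Nat.castRingHom ℤ) - Q.map (Nat.castRingHom ℤ) ∧
    P.eval 1 + Q.eval 1 ≤ s

lemma Sm.add {s u : ℕ} {F G : ℤ[X]} (hF : Sm s F) (hG : Sm u G) : Sm (s + u) (F + G) := by
  obtain ⟨P, Q, rfl, h1⟩ := hF
  obtain ⟨P', Q', rfl, h2⟩ := hG
  refine ⟨P + P', Q + Q', ?_, ?_⟩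
  · simp only [Polynomial.map_add]; ring
  · simp only [eval_add]; omega

lemma Sm.neg {s : ℕ} {F : ℤ[X]} (hF : Sm s F) : Sm s (-F) := by
  obtain ⟨P, Q, rfl, h1⟩ := hF
  exact ⟨Q, P, by ring, by omega⟩

lemma Sm.mul {s u : ℕ} {F G : ℤ[X]} (hF : Sm s F) (hG : Sm u G) : Sm (s * u) (F * G) := by
  obtain ⟨P, Q, rfl, h1⟩ := hF
  obtain ⟨P', Q', rfl, h2⟩ := hG
  refine ⟨P * P' + Q * Q', P * Q' + Q * P', ?_, ?_⟩
  · simp only [Polynomial.map_add, Polynomial.map_mul]; ring
  · simp only [eval_add, eval_mul]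
    calc _ = (P.eval 1 + Q.eval 1) * (P'.eval 1 + Q'.eval 1) := by ring
      _ ≤ s * u := Nat.mul_le_mul h1 h2

lemma sum_le_eval (P : ℕ[X]) (n : ℕ) : ∑ i ∈ Finset.range n, P.coeff i ≤ P.eval 1 := by
  rw [eval_eq_sum_range' (n := max n (P.natDegree + 1)) (by omega)]
  simp only [one_pow, mul_one]
  exact Finset.sum_le_sum_of_subset (Finset.range_mono (le_max_left _ _))

lemma Sm.sum {s : ℕ} {F : ℤ[X]} (hF : Sm s F) (n : ℕ) :
    ∑ i ∈ Finset.range n, |F.coeff i| ≤ s := by
  obtain ⟨P, Q, rfl, h1⟩ := hF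
  have h2 := sum_le_eval P n
  have h3 := sum_le_eval Q n
  calc ∑ i ∈ Finset.range n, |(P.map (Nat.castRingHom ℤ) - Q.map (Nat.castRingHom ℤ)).coeff i|
      ≤ ∑ i ∈ Finset.range n, ((P.coeff i : ℤ) + Q.coeff i) := by
        refine Finset.sum_le_sum fun i _ => ?_
        rw [coeff_sub, coeff_map, coeff_map]
        simp only [eq_natCast, Nat.cast_id]
        rw [abs_le]
        constructor <;> omega
    _ = ((∑ i ∈ Finset.range n, P.coeff i + ∑ i ∈ Finset.range n, Q.coeff i : ℕ) : ℤ) := by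
        push_cast
        rw [Finset.sum_add_distrib]
    _ ≤ s := by exact_mod_cast (add_le_add h2 h3).trans h1

lemma Sm.coeff {s : ℕ} {F : ℤ[X]} (hF : Sm s F) (i : ℕ) : |F.coeff i| ≤ s :=
  (Finset.single_le_sum (f := fun i => |F.coeff i|) (fun _ _ => abs_nonneg _)
    (Finset.mem_range.2 (Nat.lt_succ_self i))).trans (hF.sum (i + 1))

lemma Sm.upper {s : ℕ} {F : ℤ[X]} (hF : Sm s F) {t : ℤ} (ht : 1 ≤ t) :
    |F.eval t| ≤ s * t ^ F.natDegree := by
  rw [eval_eq_sum_range]
  refine (Finset.abs_sum_le_sum_abs _ _).trans ?_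
  calc ∑ i ∈ Finset.range (F.natDegree + 1), |F.coeff i * t ^ i|
      ≤ ∑ i ∈ Finset.range (F.natDegree + 1), |F.coeff i| * t ^ F.natDegree := by
        refine Finset.sum_le_sum fun i hi => ?_
        rw [abs_mul, abs_of_nonneg (by positivity : (0:ℤ) ≤ t ^ i)]
        have := Finset.mem_range.1 hi
        exact mul_le_mul_of_nonneg_left (pow_le_pow_right₀ ht (by omega)) (abs_nonneg _)
    _ = (∑ i ∈ Finset.range (F.natDegree + 1), |F.coeff i|) * t ^ F.natDegree := by
        rw [Finset.sum_mul]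
    _ ≤ _ := mul_le_mul_of_nonneg_right (hF.sum _) (by positivity)

lemma lower {F : ℤ[X]} {s t : ℤ} (hF : F ≠ 0) (hc : ∀ i, |F.coeff i| ≤ s) (hs : 0 ≤ s)
    (ht : 2 * s + 2 ≤ t) : t ^ F.natDegree ≤ 2 * |F.eval t| := by
  rw [eval_eq_sum_range, Finset.sum_range_succ]
  set d := F.natDegree with hd
  set L : ℤ := ∑ i ∈ Finset.range d, F.coeff i * t ^ i with hL
  have h1 : |L| ≤ s * ∑ i ∈ Finset.range d, t ^ i := by
    rw [Finset.mul_sum]
    refine (Finset.abs_sum_le_sum_abs _ _).trans (Finset.sum_le_sum fun i _ => ?_)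
    rw [abs_mul, abs_of_nonneg (pow_nonneg (by linarith) i : (0:ℤ) ≤ t ^ i)]
    exact mul_le_mul_of_nonneg_right (hc i) (pow_nonneg (by linarith) i)
  have h2 : (∑ i ∈ Finset.range d, t ^ i) * (t - 1) = t ^ d - 1 := geom_sum_mul t d
  have h3 : 0 ≤ ∑ i ∈ Finset.range d, t ^ i :=
    Finset.sum_nonneg fun i _ => pow_nonneg (by linarith) i
  have h4 : 2 * |L| ≤ t ^ d - 1 := by
    rw [← h2]
    nlinarith
  have h5 : 1 ≤ |F.coeff d| := Int.one_le_abs (leadingCoeff_ne_zero.2 hF)
  have h6 : t ^ d ≤ |F.coeff d * t ^ d| := by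
    rw [abs_mul, abs_of_nonneg (pow_nonneg (by linarith) d : (0:ℤ) ≤ t ^ d)]
    nlinarith [pow_nonneg (by linarith : (0:ℤ) ≤ t) d]
  have h7 : |F.coeff d * t ^ d| ≤ |L + F.coeff d * t ^ d| + |L| := by
    have := abs_sub_abs_le_abs_sub (F.coeff d * t ^ d) (-L)
    rw [abs_neg, sub_neg_eq_add, add_comm (F.coeff d * t ^ d) L] at this
    linarith
  linarith

/-- the difference of two natural numbers with small digits in base `t` -/
def SmallDigits (t s : ℕ) (X : ℤ) : Prop :=
  ∃ U V : ℕ, X = U - V ∧ (Nat.digits t U).sum + (Nat.digits t V).sum ≤ s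

lemma poly_digits (t : ℕ) (L : List ℕ) : ∃ P : ℕ[X], P.eval 1 = L.sum ∧
    P.eval t = Nat.ofDigits t L := by
  induction L with
  | nil => exact ⟨0, by simp, by simp⟩
  | cons d L ih =>
    obtain ⟨P, h1, h2⟩ := ih
    refine ⟨C d + X * P, by simp [h1], ?_⟩
    rw [eval_add, eval_C, eval_mul, eval_X, h2, Nat.ofDigits_cons]

lemma SmallDigits.poly {t s : ℕ} {X : ℤ} (h : SmallDigits t s X) :
    ∃ F : ℤ[X], Sm s F ∧ F.eval (t : ℤ) = X := by
  obtain ⟨U, V, rfl, h1⟩ := h
  obtain ⟨P, p1, p2⟩ := poly_digits t (Nat.digits t U)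
  obtain ⟨Q, q1, q2⟩ := poly_digits t (Nat.digits t V)
  refine ⟨_, ⟨P, Q, rfl, by rw [p1, q1]; exact h1⟩, ?_⟩
  rw [Nat.ofDigits_digits] at p2 q2
  have e : ∀ P : ℕ[X], (P.map (Nat.castRingHom ℤ)).eval (t : ℤ) = ((P.eval t : ℕ) : ℤ) := by
    intro P
    have := Polynomial.eval_natCast_map (Nat.castRingHom ℤ) P t
    simpa using this
  rw [eval_sub, e, e, p2, q2]

theorem digits_bound {t s : ℕ} (hst : 8 * s ^ 3 + 2 ≤ t) {A B x y : ℤ}
    (hA : SmallDigits t s A) (hB : SmallDigits t s B) (hx : SmallDigits t s x)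
    (hy : SmallDigits t s y) (hD : 4 * A ^ 3 + 27 * B ^ 2 ≠ 0) (h : y ^ 2 = x ^ 3 + A * x + B) :
    max |x| |y| ≤ s * (2 * max |A| |B|) ^ 18 := by
  obtain ⟨a, sa, rfl⟩ := hA.poly
  obtain ⟨b, sb, rfl⟩ := hB.poly
  obtain ⟨f, sf, rfl⟩ := hx.poly
  obtain ⟨g, sg, rfl⟩ := hy.poly
  have ht1 : (1:ℤ) ≤ t := by exact_mod_cast (by omega : 1 ≤ t)
  have hid : g ^ 2 = f ^ 3 + a * f + b := by
    by_contra hne
    have hP : f ^ 3 + a * f + b - g ^ 2 ≠ 0 := fun h0 => hne (by linear_combination -h0)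
    have sP : Sm (s * s * s + s * s + s + s * s) (f ^ 3 + a * f + b + -(g ^ 2)) := by
      have e1 : f ^ 3 = f * f * f := by ring
      have e2 : g ^ 2 = g * g := by ring
      rw [e1, e2]
      exact ((((sf.mul sf).mul sf).add (sa.mul sf)).add sb).add (sg.mul sg).neg
    have h1 := lower (F := f ^ 3 + a * f + b - g ^ 2) hP (s := ((4 * s ^ 3 : ℕ) : ℤ))
      (t := (t : ℤ)) (fun i => by
        rw [sub_eq_add_neg]
        refine (sP.coeff i).trans ?_
        rcases Nat.eq_zero_or_pos s with h0 | h0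
        · subst h0; simp
        · have e3 : s * s ≤ s ^ 3 := by
            calc s * s = s ^ 2 := by ring
              _ ≤ s ^ 3 := Nat.pow_le_pow_right h0 (by norm_num)
          have e4 : s ≤ s ^ 3 := Nat.le_self_pow (by norm_num) s
          have e5 : s * s * s = s ^ 3 := by ring
          exact_mod_cast (by omega : s * s * s + s * s + s + s * s ≤ 4 * s ^ 3))
      (by positivity) (by push_cast; exact_mod_cast (by omega : 2 * (4 * s ^ 3) + 2 ≤ t))
    have h2 : (f ^ 3 + a * f + b - g ^ 2).eval (t : ℤ) = 0 := by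
      simp only [eval_sub, eval_add, eval_mul, eval_pow]
      linear_combination -h
    rw [h2, abs_zero, mul_zero] at h1
    have h3 : (0:ℤ) < (t:ℤ) ^ (f ^ 3 + a * f + b - g ^ 2).natDegree := by positivity
    linarith
  -- the function field bound
  set n := max a.natDegree b.natDegree with hn
  have hinj : Function.Injective (Int.castRingHom ℚ) := Int.cast_injective
  have hDp : 4 * a ^ 3 + 27 * b ^ 2 ≠ 0 := by
    intro h0
    apply hD
    have := congrArg (Polynomial.eval (t : ℤ)) h0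
    simpa using this
  have hf : f.natDegree ≤ 12 * n := by
    have h1 := ff_bound (K := ℚ) (x := f.map (Int.castRingHom ℚ)) (y := g.map (Int.castRingHom ℚ))
      (a := a.map (Int.castRingHom ℚ)) (b := b.map (Int.castRingHom ℚ))
      (by rw [← Polynomial.map_pow, hid]; simp) (fun h0 => hDp (by
        apply Polynomial.map_injective _ hinj
        simpa using h0)) (n := n)
      (natDegree_map_le.trans (le_max_left _ _)) (natDegree_map_le.trans (le_max_right _ _))
    rwa [natDegree_map_eq_of_injective hinj] at h1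
  have hg : g.natDegree ≤ 18 * n := by
    have h1 : (g ^ 2).natDegree ≤ 36 * n := by
      rw [hid]
      have ha' : a.natDegree ≤ n := le_max_left _ _
      have hb' : b.natDegree ≤ n := le_max_right _ _
      compute_degree
      omega
    rw [natDegree_pow] at h1
    omega
  -- lower bound for A, B
  have hss : 2 * (s : ℤ) + 2 ≤ t := by
    have : s ≤ s ^ 3 := Nat.le_self_pow (by norm_num) s
    exact_mod_cast (by omega : 2 * s + 2 ≤ t)
  have hm : (t : ℤ) ^ n ≤ 2 * max |a.eval (t : ℤ)| |b.eval (t : ℤ)| := by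
    rcases le_total b.natDegree a.natDegree with hc | hc
    · have hna : n = a.natDegree := max_eq_left hc
      by_cases ha0 : a = 0
      · have hb0 : b ≠ 0 := by
          rintro rfl
          exact hDp (by rw [ha0]; simp)
        have h1 := lower hb0 (sb.coeff) (by positivity) hss
        have h2 : b.natDegree = n := by rw [hna, ha0, natDegree_zero]; rw [ha0, natDegree_zero] at hc; omega
        rw [h2] at h1
        exact h1.trans (by linarith [le_max_right |a.eval (t : ℤ)| |b.eval (t : ℤ)|])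
      · have h1 := lower ha0 (sa.coeff) (by positivity) hss
        rw [← hna] at h1
        exact h1.trans (by linarith [le_max_left |a.eval (t : ℤ)| |b.eval (t : ℤ)|])
    · have hnb : n = b.natDegree := max_eq_right hc
      by_cases hb0 : b = 0
      · have ha0 : a ≠ 0 := by
          rintro rfl
          exact hDp (by rw [hb0]; simp)
        have h1 := lower ha0 (sa.coeff) (by positivity) hss
        have h2 : a.natDegree = n := by rw [hnb, hb0, natDegree_zero]; rw [hb0, natDegree_zero] at hc; omega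
        rw [h2] at h1
        exact h1.trans (by linarith [le_max_left |a.eval (t : ℤ)| |b.eval (t : ℤ)|])
      · have h1 := lower hb0 (sb.coeff) (by positivity) hss
        rw [← hnb] at h1
        exact h1.trans (by linarith [le_max_right |a.eval (t : ℤ)| |b.eval (t : ℤ)|])
  have hfin : ∀ u : ℤ[X], Sm s u → u.natDegree ≤ 18 * n →
      |u.eval (t : ℤ)| ≤ s * (2 * max |a.eval (t : ℤ)| |b.eval (t : ℤ)|) ^ 18 := by
    intro u su hu
    refine (su.upper ht1).trans ?_
    calc (s : ℤ) * (t : ℤ) ^ u.natDegree ≤ s * (t : ℤ) ^ (18 * n) :=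
          mul_le_mul_of_nonneg_left (pow_le_pow_right₀ ht1 hu) (by positivity)
      _ = s * ((t : ℤ) ^ n) ^ 18 := by rw [← pow_mul, mul_comm n 18]
      _ ≤ _ := mul_le_mul_of_nonneg_left (pow_le_pow_left₀ (by positivity) hm 18) (by positivity)
  exact max_le (hfin f sf (by omega)) (hfin g sg hg)

end Pool.Agent.J4H90.HL
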