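import Mathlib
import Pool.Agent.J4H90.HL.Dig
import Pool.Agent.J4H90.PS.Core

/-! Hall's conjecture for small digit sums. -/

open Polynomial

namespace Pool.Agent.J4H90.HL

/-- Davenport's inequality -/
theorem davenport {x y b : ℤ[X]} (h : y ^ 2 = x ^ 3 + b) (hb : b ≠ 0) (hd : 1 ≤ x.natDegree) :
    x.natDegree + 2 ≤ 2 * b.natDegree := by
  by_contra hcon
  push Not at hcon
  have hx0 : x ≠ 0 := by rintro rfl; simp at hd
  have h3 : (x ^ 3).natDegree = 3 * x.natDegree := by rw [natDegree_pow]
  have hyd : (y ^ 2).natDegree = 3 * x.natDegree := by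
    rw [h, natDegree_add_eq_left_of_natDegree_lt (by rw [h3]; omega), h3]
  rw [natDegree_pow] at hyd
  have hy0 : y ≠ 0 := by rintro rfl; simp at hyd; omega
  have hR : 2 * y * derivative y = 3 * x ^ 2 * derivative x + derivative b := by
    have h1 := congrArg derivative h
    simp only [derivative_pow, derivative_add, Nat.cast_ofNat, map_ofNat] at h1
    norm_num at h1
    linear_combination h1
  have hw : y * (3 * y * derivative x - 2 * x * derivative y) =
      3 * b * derivative x - x * derivative b := by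
    linear_combination 3 * derivative x * h - x * hR
  by_cases hw0 : 3 * b * derivative x - x * derivative b = 0
  · have h4 : derivative (x ^ 3) * b = x ^ 3 * derivative b := by
      simp only [derivative_pow, Nat.cast_ofNat, map_ofNat]
      norm_num
      linear_combination x ^ 2 * hw0
    have h5 := Pool.Agent.J4H90.PS.degeq (pow_ne_zero 3 hx0) hb h4
    rw [h3] at h5
    omega
  · have h4 : (3 * b * derivative x - x * derivative b).natDegree ≤
        b.natDegree + (x.natDegree - 1) := by
      refine (natDegree_sub_le _ _).trans (max_le ?_ ?_)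
      · have h5 : (3 * b).natDegree ≤ b.natDegree := by
          have := natDegree_C_mul_le (3 : ℤ) b
          simpa using this
        exact natDegree_mul_le.trans (add_le_add h5 (natDegree_derivative_le _))
      · rcases Nat.eq_zero_or_pos b.natDegree with h6 | h6
        · rw [eq_C_of_natDegree_eq_zero h6, derivative_C, mul_zero, natDegree_zero]
          exact Nat.zero_le _
        · refine natDegree_mul_le.trans ?_
          have := natDegree_derivative_le b
          omega
    have h5 : y.natDegree ≤ (3 * b * derivative x - x * derivative b).natDegree := by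
      rw [← hw] at hw0 ⊢
      rw [natDegree_mul hy0 (right_ne_zero_of_mul hw0)]
      omega
    omega

theorem hall_digits {t s : ℕ} (hst : 4 * s ^ 3 + 2 ≤ t) {x y : ℤ}
    (hx : SmallDigits t s x) (hy : SmallDigits t s y) (hxy : y ^ 2 ≠ x ^ 3) (hxs : (s : ℤ) < |x|) :
    (t : ℤ) ^ 2 * |x| ≤ 4 * s * (y ^ 2 - x ^ 3) ^ 2 := by
  obtain ⟨f, sf, rfl⟩ := hx.poly
  obtain ⟨g, sg, rfl⟩ := hy.poly
  have ht1 : (1:ℤ) ≤ t := by exact_mod_cast (by omega : 1 ≤ t)
  have sb : Sm (s * s + s * s * s) (g ^ 2 - f ^ 3) := by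
    have e1 : f ^ 3 = f * f * f := by ring
    have e2 : g ^ 2 = g * g := by ring
    rw [e1, e2, sub_eq_add_neg]
    exact (sg.mul sg).add ((sf.mul sf).mul sf).neg
  have hb0 : g ^ 2 - f ^ 3 ≠ 0 := by
    intro h0
    apply hxy
    have := congrArg (Polynomial.eval (t : ℤ)) h0
    simp only [eval_sub, eval_pow, eval_zero] at this
    linarith
  have hd : 1 ≤ f.natDegree := by
    by_contra hcon
    have h0 : f.natDegree = 0 := by omega
    have h1 := sf.upper ht1
    rw [h0, pow_zero, mul_one] at h1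
    linarith
  have h1 := davenport (x := f) (y := g) (b := g ^ 2 - f ^ 3) (by ring) hb0 hd
  have h2 := lower hb0 (s := ((2 * s ^ 3 : ℕ) : ℤ)) (t := (t : ℤ)) (fun i => by
    refine (sb.coeff i).trans ?_
    rcases Nat.eq_zero_or_pos s with h0 | h0
    · subst h0; simp
    · have e3 : s * s ≤ s ^ 3 := by
        calc s * s = s ^ 2 := by ring
          _ ≤ s ^ 3 := Nat.pow_le_pow_right h0 (by norm_num)
      have e5 : s * s * s = s ^ 3 := by ring
      exact_mod_cast (by omega : s * s + s * s * s ≤ 2 * s ^ 3))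
    (by positivity) (by exact_mod_cast (by omega : 2 * (2 * s ^ 3) + 2 ≤ t))
  rw [eval_sub, eval_pow, eval_pow] at h2
  have h3 := sf.upper ht1
  set X := f.eval (t : ℤ)
  set Y := g.eval (t : ℤ)
  have h4 : ((t : ℤ) ^ (g ^ 2 - f ^ 3).natDegree) ^ 2 ≤ (2 * |Y ^ 2 - X ^ 3|) ^ 2 :=
    pow_le_pow_left₀ (by positivity) h2 2
  rw [mul_pow, sq_abs, ← pow_mul] at h4
  have h5 : (t : ℤ) ^ (f.natDegree + 2) ≤ (t : ℤ) ^ ((g ^ 2 - f ^ 3).natDegree * 2) :=
    pow_le_pow_right₀ ht1 (by omega)
  calc (t : ℤ) ^ 2 * |X| ≤ (t : ℤ) ^ 2 * (s * (t : ℤ) ^ f.natDegree) :=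
        mul_le_mul_of_nonneg_left h3 (by positivity)
    _ = s * (t : ℤ) ^ (f.natDegree + 2) := by ring
    _ ≤ s * (2 ^ 2 * (Y ^ 2 - X ^ 3) ^ 2) :=
        mul_le_mul_of_nonneg_left (h5.trans h4) (by positivity)
    _ = _ := by ring

end Pool.Agent.J4H90.HL
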