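import Mathlib
import Pool.Agent.J4H90.HL.Short

/-! Integral points with small digit sums: all curves whose coefficients have few digits. -/

open Polynomial

namespace Pool.Agent.J4H90.HL

theorem long_bound {t s N : ℕ} (hst : (4 * s) ^ (2 * N + 4) ≤ t) (ht0 : 1 ≤ t) {A B x y : ℤ}
    (hx : SmallDigits t s x) (hy : SmallDigits t s y) (hHN : max |A| |B| ≤ (t : ℤ) ^ N)
    (hD : 4 * A ^ 3 + 27 * B ^ 2 ≠ 0) (h : y ^ 2 = x ^ 3 + A * x + B) :
    |x| ≤ max (s : ℤ) (max |A| |B| ^ 26) := by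
  by_contra hcon
  rw [le_max_iff, not_or, not_le, not_le] at hcon
  obtain ⟨hxs, hxH⟩ := hcon
  obtain ⟨f, sf, rfl⟩ := hx.poly
  obtain ⟨g, sg, rfl⟩ := hy.poly
  obtain ⟨X0, hX0⟩ : ∃ X0, X0 = f.eval (t : ℤ) := ⟨_, rfl⟩
  obtain ⟨Y0, hY0⟩ : ∃ Y0, Y0 = g.eval (t : ℤ) := ⟨_, rfl⟩
  rw [← hX0] at hxs hxH h
  rw [← hY0] at h
  obtain ⟨H, hH⟩ : ∃ H, H = max |A| |B| := ⟨_, rfl⟩
  rw [← hH] at hxH hHN
  have hAH : |A| ≤ H := hH ▸ le_max_left _ _
  have hBH : |B| ≤ H := hH ▸ le_max_right _ _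
  have ht1 : (1:ℤ) ≤ t := by exact_mod_cast ht0
  have hH1 : 1 ≤ H := by
    by_contra hc
    have h0 : H = 0 := le_antisymm (by omega) ((abs_nonneg A).trans hAH)
    rw [h0] at hAH hBH
    have hA0 : A = 0 := abs_nonpos_iff.1 hAH
    have hB0 : B = 0 := abs_nonpos_iff.1 hBH
    exact hD (by rw [hA0, hB0]; norm_num)
  have hH2 : H ^ 2 < |X0| := (pow_le_pow_right₀ hH1 (by norm_num)).trans_lt hxH
  -- the degree of f is positive
  have hd : 1 ≤ f.natDegree := by
    by_contra hc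
    have h0 : f.natDegree = 0 := by omega
    have h1 := sf.upper ht1
    rw [h0, pow_zero, mul_one, ← hX0] at h1
    linarith
  have hf0 : f ≠ 0 := by rintro rfl; simp at hd
  have hs : 1 ≤ s := by
    have h1 := Int.one_le_abs (leadingCoeff_ne_zero.2 hf0)
    exact_mod_cast h1.trans (sf.coeff _)
  have h4s : 1 ≤ 4 * s := by omega
  have hpw : ∀ m ≤ 2 * N + 4, ((4 * s : ℕ) : ℤ) ^ m ≤ t := by
    intro m hm
    exact_mod_cast (Nat.pow_le_pow_right h4s hm).trans hst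
  have hS1 : (1:ℤ) ≤ (s : ℤ) := by exact_mod_cast hs
  obtain ⟨S, hS⟩ : ∃ S : ℤ, S = (s : ℤ) := ⟨_, rfl⟩
  obtain ⟨T, hT⟩ : ∃ T : ℤ, T = (t : ℤ) := ⟨_, rfl⟩
  have hpw' : ∀ m ≤ 2 * N + 4, (4 * S) ^ m ≤ T := by
    intro m hm
    have := hpw m hm
    push_cast at this
    rw [hS, hT]; exact this
  rw [← hS] at hS1 hxs
  rw [← hT] at ht1 hHN
  have h64 : 64 * S ^ 3 ≤ T := by
    have := hpw' 3 (by omega)
    calc 64 * S ^ 3 = (4 * S) ^ 3 := by ring
      _ ≤ T := this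
  have hS3 : S ≤ S ^ 3 := le_self_pow₀ hS1 (by norm_num)
  have hSS : S * S ≤ S ^ 3 := by
    calc S * S = S ^ 2 := by ring
      _ ≤ S ^ 3 := pow_le_pow_right₀ hS1 (by norm_num)
  have hup : |X0| ≤ S * T ^ f.natDegree := by rw [hX0, hS, hT]; exact sf.upper (by rw [← hT]; exact ht1)
  have hlo : T ^ f.natDegree ≤ 2 * |X0| := by
    rw [hX0, hT]
    refine lower hf0 (sf.coeff) (by positivity) ?_
    rw [← hS, ← hT]; linarith
  obtain ⟨n, hn⟩ : ∃ n, n = f.natDegree := ⟨_, rfl⟩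
  rw [← hn] at hd hup hlo
  have hT2 : 2 ≤ T := by linarith
  obtain ⟨P, hP⟩ : ∃ P, P = g ^ 2 - f ^ 3 := ⟨_, rfl⟩
  have hPt : P.eval (t : ℤ) = A * X0 + B := by
    rw [hP, eval_sub, eval_pow, eval_pow, ← hX0, ← hY0]
    linarith
  have sP : Sm (s * s + s * s * s) P := by
    have e1 : f ^ 3 = f * f * f := by ring
    have e2 : g ^ 2 = g * g := by ring
    rw [hP, e1, e2, sub_eq_add_neg]
    exact (sg.mul sg).add ((sf.mul sf).mul sf).neg
  have hHX : H < |X0| := lt_of_le_of_lt (le_self_pow₀ hH1 (by norm_num)) hH2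
  have hP0 : P ≠ 0 := by
    rintro h0
    rw [h0, eval_zero] at hPt
    have hA0 : A ≠ 0 := by
      rintro hA0
      rw [hA0] at hPt
      exact hD (by rw [hA0, (by linarith : B = 0)]; norm_num)
    have h1 : |A| * |X0| = |B| := by
      rw [← abs_mul, (by linarith : A * X0 = -B), abs_neg]
    have h2 := Int.one_le_abs hA0
    have h3 : |X0| ≤ |A| * |X0| := le_mul_of_one_le_left (abs_nonneg _) h2
    linarith
  have hAXB : |A * X0 + B| ≤ 2 * H * |X0| := by
    calc |A * X0 + B| ≤ |A| * |X0| + |B| := by rw [← abs_mul]; exact abs_add_le _ _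
      _ ≤ H * |X0| + H * |X0| := by
        exact add_le_add (mul_le_mul_of_nonneg_right hAH (abs_nonneg _))
          (hBH.trans (le_mul_of_one_le_right (by linarith) (by linarith)))
      _ = _ := by ring
  have hPlo : T ^ P.natDegree ≤ 2 * (2 * H * |X0|) := by
    have h1 := lower hP0 (s := ((s * s + s * s * s : ℕ) : ℤ)) (t := (t : ℤ)) (sP.coeff)
      (by positivity) (by
        push_cast
        rw [← hS, ← hT]
        have : S * S * S = S ^ 3 := by ring
        linarith)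
    rw [hPt, ← hT] at h1
    linarith
  have hpN : P.natDegree ≤ N + n := by
    by_contra hc
    push Not at hc
    have h1 : T ^ (N + n + 1) ≤ T ^ P.natDegree := pow_le_pow_right₀ ht1 hc
    have h2 : H * |X0| ≤ T ^ N * (S * T ^ n) :=
      mul_le_mul hHN hup (abs_nonneg _) (pow_nonneg (by linarith) N)
    have h3 : T ^ (N + n + 1) = T * T ^ (N + n) := by ring
    have h4 : T ^ N * (S * T ^ n) = S * T ^ (N + n) := by ring
    have h5 : 0 < T ^ (N + n) := pow_pos (by linarith) _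
    have h6 : (4 * S) * T ^ (N + n) < T * T ^ (N + n) :=
      mul_lt_mul_of_pos_right (by linarith) h5
    linarith
  obtain ⟨k, hk⟩ : ∃ k, k = P.natDegree + 1 - n := ⟨_, rfl⟩
  have hk1 : P.natDegree < f.natDegree + k := by omega
  have hk2 : k ≤ N + 1 := by omega
  obtain ⟨q, r, e1, e2, sq, sr⟩ := pdiv sf (by omega) k P _ hk1 sP
  obtain ⟨c, hc⟩ : ∃ c, c = f.leadingCoeff := ⟨_, rfl⟩
  rw [← hc] at e1
  have hcS : |c| ≤ S := by rw [hc, hS]; exact sf.coeff _
  have hc0 : c ≠ 0 := by rw [hc]; exact leadingCoeff_ne_zero.2 hf0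
  obtain ⟨U, hU⟩ : ∃ U : ℕ, U = (s * s + s * s * s) * (4 * s) ^ k := ⟨_, rfl⟩
  rw [← hU] at sq sr
  have hUT : 4 * (U : ℤ) + 2 ≤ T := by
    rw [hU]
    push_cast
    rw [← hS]
    have h1 : (1:ℤ) ≤ (4 * S) ^ k := one_le_pow₀ (by linarith)
    have h2 : (4 * S) ^ (k + 3) ≤ T := hpw' _ (by omega)
    have h3 : (4 * S) ^ (k + 3) = 64 * S ^ 3 * (4 * S) ^ k := by ring
    have h4 : (S * S + S * S * S) ≤ 2 * S ^ 3 := by
      have : S * S * S = S ^ 3 := by ring
      linarith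
    have h5 : (S * S + S * S * S) * (4 * S) ^ k ≤ 2 * S ^ 3 * (4 * S) ^ k :=
      mul_le_mul_of_nonneg_right h4 (by linarith)
    have h6 : (1:ℤ) ≤ S ^ 3 * (4 * S) ^ k := by
      exact one_le_mul_of_one_le_of_one_le (one_le_pow₀ hS1) h1
    linarith
  have hSk : 16 * S ^ (2 * k + 1) ≤ T := by
    have h1 := hpw' (2 * k + 2) (by omega)
    have h2 : (4 * S) ^ (2 * k + 2) = 4 ^ (2 * k + 2) * S ^ (2 * k + 2) := mul_pow _ _ _
    have h3 : (16:ℤ) ≤ 4 ^ (2 * k + 2) := by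
      calc (16:ℤ) = 4 ^ 2 := by norm_num
        _ ≤ _ := pow_le_pow_right₀ (by norm_num) (by omega)
    have h4 : S ^ (2 * k + 1) ≤ S ^ (2 * k + 2) := pow_le_pow_right₀ hS1 (by omega)
    have h5 : 0 < S ^ (2 * k + 1) := pow_pos (by linarith) _
    calc 16 * S ^ (2 * k + 1) ≤ 4 ^ (2 * k + 2) * S ^ (2 * k + 2) :=
          mul_le_mul h3 h4 h5.le (by positivity)
      _ ≤ T := by rw [← h2]; exact h1
  have hck : |c ^ k| ≤ S ^ k := by rw [abs_pow]; exact pow_le_pow_left₀ (abs_nonneg _) hcS k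
  have hTn : 0 < T ^ n := pow_pos (by linarith) _
  -- evaluation
  have ev : c ^ k * (A * X0 + B) = q.eval (t : ℤ) * X0 + r.eval (t : ℤ) := by
    have := congrArg (Polynomial.eval (t : ℤ)) e1
    rw [eval_mul, eval_C, hPt, eval_add, eval_mul, ← hX0] at this
    exact this
  have hr1 : |r.eval (t : ℤ)| * 4 < T ^ n := by
    have h1 := sr.upper (t := (t : ℤ)) (by rw [← hT]; exact ht1)
    rw [← hT] at h1
    have h2 : T ^ r.natDegree ≤ T ^ (n - 1) := pow_le_pow_right₀ ht1 (by omega)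
    have h3 : T ^ n = T * T ^ (n - 1) := by
      rw [← pow_succ', Nat.sub_add_cancel hd]
    have h4 : 0 < T ^ (n - 1) := pow_pos (by linarith) _
    have h5 : (0:ℤ) ≤ (U : ℤ) := by positivity
    rw [← hT]
    rw [h3]
    have h6 : (U : ℤ) * T ^ r.natDegree ≤ U * T ^ (n - 1) := mul_le_mul_of_nonneg_left h2 h5
    have h7 : (4 * (U : ℤ)) * T ^ (n - 1) < T * T ^ (n - 1) :=
      mul_lt_mul_of_pos_right (by linarith) h4
    rw [hT] at h7 h6 h1 ⊢
    linarith
  have hkH : 4 * (S ^ k * H) < T ^ n := by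
    refine lt_of_pow_lt_pow_left₀ 2 hTn.le ?_
    have h1 : (4 * (S ^ k * H)) ^ 2 = 16 * S ^ (2 * k) * H ^ 2 := by ring
    have h2 : 0 < 16 * S ^ (2 * k) := by positivity
    have h3 : 16 * S ^ (2 * k) * H ^ 2 < 16 * S ^ (2 * k) * (S * T ^ n) :=
      mul_lt_mul_of_pos_left (hH2.trans_le hup) h2
    have h4 : 16 * S ^ (2 * k) * (S * T ^ n) = 16 * S ^ (2 * k + 1) * T ^ n := by ring
    have h5 : 16 * S ^ (2 * k + 1) * T ^ n ≤ T * T ^ n := mul_le_mul_of_nonneg_right hSk hTn.le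
    have h6 : T * T ^ n ≤ (T ^ n) ^ 2 := by
      rw [pow_two]
      exact mul_le_mul_of_nonneg_right (le_self_pow₀ ht1 (by omega)) hTn.le
    rw [h1]
    linarith
  have hcB : |c ^ k * B| ≤ S ^ k * H := by
    rw [abs_mul]
    exact mul_le_mul hck hBH (abs_nonneg _) (by positivity)
  have hcA : |c ^ k * A| ≤ S ^ k * H := by
    rw [abs_mul]
    exact mul_le_mul hck hAH (abs_nonneg _) (by positivity)
  have hz : c ^ k * A - q.eval (t : ℤ) = 0 := by
    by_contra hne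
    have h1 := Int.one_le_abs hne
    have h2 : |X0| ≤ |r.eval (t : ℤ) - c ^ k * B| := by
      have : r.eval (t : ℤ) - c ^ k * B = X0 * (c ^ k * A - q.eval (t : ℤ)) := by
        linear_combination -ev
      rw [this, abs_mul]
      exact le_mul_of_one_le_right (abs_nonneg _) h1
    have h3 := abs_sub (r.eval (t : ℤ)) (c ^ k * B)
    linarith
  have hqA : q.eval (t : ℤ) = c ^ k * A := by linarith
  have hrB : r.eval (t : ℤ) = c ^ k * B := by
    rw [hqA] at ev
    linear_combination -ev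
  -- the function field bound
  have hinj : Function.Injective (Int.castRingHom ℚ) := Int.cast_injective
  have hcq : ((c : ℚ) ^ k) ≠ 0 := pow_ne_zero _ (by exact_mod_cast hc0)
  obtain ⟨a', ha'⟩ : ∃ a', a' = Polynomial.C (((c : ℚ) ^ k)⁻¹) * q.map (Int.castRingHom ℚ) := ⟨_, rfl⟩
  obtain ⟨b', hb'⟩ : ∃ b', b' = Polynomial.C (((c : ℚ) ^ k)⁻¹) * r.map (Int.castRingHom ℚ) := ⟨_, rfl⟩
  have evq : ∀ p : ℤ[X], (p.map (Int.castRingHom ℚ)).eval (t : ℚ) = ((p.eval (t : ℤ) : ℤ) : ℚ) := by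
    intro p
    have := Polynomial.eval_intCast_map (Int.castRingHom ℚ) p (t : ℤ)
    simpa using this
  have ea' : a'.eval (t : ℚ) = A := by
    rw [ha', eval_mul, eval_C, evq, hqA]
    push_cast
    rw [← mul_assoc, inv_mul_cancel₀ hcq, one_mul]
  have eb' : b'.eval (t : ℚ) = B := by
    rw [hb', eval_mul, eval_C, evq, hrB]
    push_cast
    rw [← mul_assoc, inv_mul_cancel₀ hcq, one_mul]
  have hid : (g.map (Int.castRingHom ℚ)) ^ 2 = (f.map (Int.castRingHom ℚ)) ^ 3 +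
      a' * f.map (Int.castRingHom ℚ) + b' := by
    have hmC : (Polynomial.C (c ^ k)).map (Int.castRingHom ℚ) = Polynomial.C ((c : ℚ) ^ k) := by
      rw [map_C]; simp
    have h1 := congrArg (Polynomial.map (Int.castRingHom ℚ)) e1
    rw [hP, Polynomial.map_mul, hmC, Polynomial.map_sub, Polynomial.map_pow, Polynomial.map_pow,
      Polynomial.map_add, Polynomial.map_mul] at h1
    have h2 : Polynomial.C (((c : ℚ) ^ k)⁻¹) * Polynomial.C ((c : ℚ) ^ k) = 1 := by
      rw [← C_mul, inv_mul_cancel₀ hcq, C_1]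
    rw [ha', hb']
    linear_combination Polynomial.C (((c : ℚ) ^ k)⁻¹) * h1 -
        ((g.map (Int.castRingHom ℚ)) ^ 2 - (f.map (Int.castRingHom ℚ)) ^ 3) * h2
  obtain ⟨m, hm⟩ : ∃ m, m = max q.natDegree r.natDegree := ⟨_, rfl⟩
  have hff := ff_bound hid (fun h0 => by
    apply hD
    have h1 := congrArg (Polynomial.eval (t : ℚ)) h0
    simp only [eval_add, eval_mul, eval_pow, ea', eb', eval_zero] at h1
    have h2 : (((4 * A ^ 3 + 27 * B ^ 2 : ℤ)) : ℚ) = 0 := by
      push_cast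
      simpa using h1
    exact_mod_cast h2) (n := m)
    (by rw [ha', hm]; exact (natDegree_C_mul_le _ _).trans (natDegree_map_le.trans (le_max_left _ _)))
    (by rw [hb', hm]; exact (natDegree_C_mul_le _ _).trans (natDegree_map_le.trans (le_max_right _ _)))
  rw [natDegree_map_eq_of_injective hinj, ← hn] at hff
  have hm1 : 1 ≤ m := by omega
  have hTm : T ^ m ≤ 2 * (S ^ k * H) := by
    have hU2 : 2 * (U : ℤ) + 2 ≤ (t : ℤ) := by
      rw [← hT]
      have : (0:ℤ) ≤ (U : ℤ) := by positivity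
      linarith
    rcases le_total r.natDegree q.natDegree with h1 | h1
    · have h2 : m = q.natDegree := by rw [hm]; exact max_eq_left h1
      have hq0 : q ≠ 0 := by rintro rfl; rw [natDegree_zero] at h2; omega
      have h3 := lower hq0 (sq.coeff) (by positivity) hU2
      rw [hqA, ← h2, ← hT] at h3
      linarith
    · have h2 : m = r.natDegree := by rw [hm]; exact max_eq_right h1
      have hr0 : r ≠ 0 := by rintro rfl; rw [natDegree_zero] at h2; omega
      have h3 := lower hr0 (sr.coeff) (by positivity) hU2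
      rw [hrB, ← h2, ← hT] at h3
      linarith
  have hTH : T ^ m ≤ H ^ 2 := by
    have h1 : (T ^ m) ^ 2 ≤ (2 * (S ^ k * H)) ^ 2 :=
      pow_le_pow_left₀ (by positivity) hTm 2
    have h2 : (2 * (S ^ k * H)) ^ 2 = 4 * S ^ (2 * k) * H ^ 2 := by ring
    have h3 : S ^ (2 * k) ≤ S ^ (2 * k + 1) := pow_le_pow_right₀ hS1 (by omega)
    have h4 : 4 * S ^ (2 * k) * H ^ 2 ≤ T * H ^ 2 := by
      apply mul_le_mul_of_nonneg_right _ (by positivity)
      have : 0 < S ^ (2 * k + 1) := pow_pos (by linarith) _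
      linarith
    have h5 : T * T ^ m ≤ (T ^ m) ^ 2 := by
      rw [pow_two]
      exact mul_le_mul_of_nonneg_right (le_self_pow₀ ht1 (by omega)) (by positivity)
    have h6 : T * T ^ m ≤ T * H ^ 2 := by linarith
    exact le_of_mul_le_mul_left h6 (by linarith)
  have hfin : |X0| ≤ H ^ 26 := by
    have h1 : T ^ n ≤ (T ^ m) ^ 12 := by
      rw [← pow_mul]
      exact pow_le_pow_right₀ ht1 (by omega)
    have h2 : (T ^ m) ^ 12 ≤ (H ^ 2) ^ 12 := pow_le_pow_left₀ (by positivity) hTH 12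
    have h3 : S ≤ H ^ 2 := by
      have h4 : T ≤ T ^ m := le_self_pow₀ ht1 (by omega)
      linarith
    calc |X0| ≤ S * T ^ n := hup
      _ ≤ H ^ 2 * (H ^ 2) ^ 12 := mul_le_mul h3 (h1.trans h2) (by positivity) (by positivity)
      _ = H ^ 26 := by ring
  linarith

end Pool.Agent.J4H90.HL
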